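import Pool.Agent.Helper96.ME.Defs

/-!
# MP_bde085_nt, block E: dimension of the space of functions reproduced by a spherical function
-/

set_option autoImplicit false

namespace Pool.Agent.Helper96.ME

open Pool.Agent.Helper96.MP
open scoped MatrixGroups

theorem trc_gen (hS : ST_SPA) (R : Type) [CommRing R] [Finite R] (φ : SL(2, R) → ℝ)
    (hφ : Sph R φ) (K : Type) [Field K] [Algebra ℝ K] (U : Submodule K (SL(2, R) → K))
    (hU : ∀ w : SL(2, R) → K, w ∈ U ↔ YS φ w) :
    (Module.finrank K U : K) * algebraMap ℝ K (sq φ) =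
      algebraMap ℝ K (Nat.card SL(2, R) : ℝ) := by
  classical
  obtain ⟨-, -, h1, -, hYS, -⟩ := hS R φ hφ
  have : Fintype SL(2, R) := Fintype.ofFinite _
  have hS0 : sq φ ≠ 0 := by linarith
  have hs0 : algebraMap ℝ K (sq φ) ≠ 0 := by
    rw [Ne, map_eq_zero]
    exact hS0
  -- the matrix of the projection
  let M : Matrix SL(2, R) SL(2, R) K :=
    fun y z => (algebraMap ℝ K (sq φ))⁻¹ * algebraMap ℝ K (φ (z * y⁻¹))
  have hM : ∀ (w : SL(2, R) → K) (y : SL(2, R)), Matrix.toLin' M w y =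
      (algebraMap ℝ K (sq φ))⁻¹ * ∑ z, algebraMap ℝ K (φ (z * y⁻¹)) * w z := by
    intro w y
    rw [Matrix.toLin'_apply, Matrix.mulVec, dotProduct, Finset.mul_sum]
    refine Finset.sum_congr rfl fun z _ => ?_
    rw [mul_assoc]
  have hconv : ∀ v : SL(2, R), ∑ x, φ x * φ (v * x⁻¹) = sq φ * φ v := by
    intro v
    have h2 := hYS v⁻¹
    rw [finsum_eq_sum_of_fintype] at h2
    simp only [smul_eq_mul] at h2
    rw [hφ.inv v] at h2
    rw [← h2]
    refine Finset.sum_congr rfl fun x _ => ?_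
    rw [← hφ.inv (v * x⁻¹)]
    rw [mul_inv_rev, inv_inv]
  have hproj : LinearMap.IsProj U (Matrix.toLin' M) := by
    refine ⟨fun w => ?_, fun w hw => ?_⟩
    · rw [hU]
      intro y
      rw [finsum_eq_sum_of_fintype]
      rw [hM]
      rw [Algebra.smul_def, mul_inv_cancel_left₀ hs0]
      have h2 : ∀ x : SL(2, R), φ x • (Matrix.toLin' M w) (x * y) =
          ∑ z, (algebraMap ℝ K (sq φ))⁻¹ * (algebraMap ℝ K (φ x * φ (z * y⁻¹ * x⁻¹)) * w z) := by
        intro x
        rw [hM, Algebra.smul_def, mul_left_comm, Finset.mul_sum, Finset.mul_sum]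
        refine Finset.sum_congr rfl fun z _ => ?_
        rw [map_mul, mul_inv_rev, mul_assoc, mul_assoc z]
      rw [Finset.sum_congr rfl fun x _ => h2 x]
      rw [Finset.sum_comm]
      refine Finset.sum_congr rfl fun z _ => ?_
      rw [← Finset.mul_sum, ← Finset.sum_mul, ← map_sum, hconv, map_mul]
      rw [mul_assoc, inv_mul_cancel_left₀ hs0]
    · rw [hU] at hw
      funext y
      rw [hM]
      have h2 := hw y
      rw [finsum_eq_sum_of_fintype, Algebra.smul_def] at h2
      have h3 : ∑ z, algebraMap ℝ K (φ (z * y⁻¹)) * w z = ∑ x, φ x • w (x * y) := by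
        symm
        refine Fintype.sum_equiv (Equiv.mulRight y) _ _ fun x => ?_
        rw [Equiv.coe_mulRight, mul_inv_cancel_right, Algebra.smul_def]
      rw [h3, h2, inv_mul_cancel_left₀ hs0]
  have htr := hproj.trace
  rw [Matrix.trace_toLin'_eq] at htr
  rw [← htr]
  rw [Matrix.trace]
  have h4 : ∀ y : SL(2, R), Matrix.diag M y = (algebraMap ℝ K (sq φ))⁻¹ := by
    intro y
    simp only [Matrix.diag, M]
    rw [mul_inv_cancel, hφ.one, map_one, mul_one]
  rw [Finset.sum_congr rfl fun y _ => h4 y]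
  rw [Finset.sum_const, Finset.card_univ, nsmul_eq_mul, mul_assoc, inv_mul_cancel₀ hs0, mul_one,
    Nat.card_eq_fintype_card, map_natCast]

theorem st_TRC (hS : ST_SPA) : ST_TRC := by
  intro R _ _ φ hφ
  refine ⟨fun U hU => ?_, fun U hU => ?_⟩
  · have h := trc_gen hS R φ hφ ℝ U hU
    exact h
  · have h := trc_gen hS R φ hφ ℂ U hU
    have h2 : ((((Module.finrank ℂ U : ℝ) * sq φ : ℝ)) : ℂ) = ((Nat.card SL(2, R) : ℝ) : ℂ) := by
      rw [Complex.ofReal_mul]
      rw [Complex.ofReal_natCast]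
      exact h
    exact Complex.ofReal_injective h2

end Pool.Agent.Helper96.ME
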